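import Mathlib

set_option autoImplicit false

/-!
# A cocycle of a finite group with `β b = 2 β a`, where `a` and `b` generate the group

`H` is a finite group generated by `a` and `b`, and `β : H → W` is a cocycle with values in an
abelian group `W` with `β b = 2 β a`. Then a positive number at most `|H|! 5 ^ |H|` annihilates
`β a`. Reason: for a function `x` on `H` with `x b + x = 2 x a` (right translations) the parallelogram
identity gives `x b = x`, so `x` is constant.
-/

namespace Pool.Agent.K6.H91.EX

open Finset Matrix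

section

variable {H : Type*} [Group H] [Fintype H] [DecidableEq H]

/-- the matrix of `x ↦ x (b + 1 - 2 a) + ε(x) 1` on the integral group ring (row vectors) -/
def T (a b : H) : Matrix H H ℤ := fun g h =>
  (if h = g * b then 1 else 0) + (if h = g then 1 else 0) - 2 * (if h = g * a then 1 else 0) +
    (if h = 1 then 1 else 0)

omit [Fintype H] in
theorem T_abs (a b g h : H) : |T a b g h| ≤ 5 := by
  unfold T
  split_ifs <;> norm_num

theorem T_smul {W : Type*} [AddCommGroup W] (a b g : H) (f : H → W) :
    ∑ h, T a b g h • f h = f (g * b) + f g - (2 : ℤ) • f (g * a) + f 1 := by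
  unfold T
  simp only [add_smul, sub_smul, mul_smul, ite_smul, one_smul, zero_smul, Finset.sum_add_distrib,
    Finset.sum_sub_distrib, ← Finset.smul_sum, Finset.sum_ite_eq', Finset.mem_univ, if_true,
    smul_ite, smul_zero]

theorem det_ne_zero {a b : H} (hgen : Subgroup.closure {a, b} = ⊤) : (T a b).det ≠ 0 := by
  intro h0
  obtain ⟨x, hx, hx0⟩ := Matrix.exists_vecMul_eq_zero_iff.2 h0
  apply hx
  have key : ∀ h, x (h * b⁻¹) + x h - 2 * x (h * a⁻¹) + (if h = 1 then ∑ g, x g else 0) = 0 := by
    intro h
    have h1 := congrFun hx0 h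
    simp only [Matrix.vecMul, dotProduct, Pi.zero_apply] at h1
    refine Eq.trans ?_ h1
    unfold T
    simp only [mul_add, mul_sub, Finset.sum_add_distrib, Finset.sum_sub_distrib]
    have e1 : ∀ c : H, ∑ g, x g * (if h = g * c then (1 : ℤ) else 0) = x (h * c⁻¹) := by
      intro c
      rw [Finset.sum_eq_single (h * c⁻¹)]
      · simp
      · intro g _ hg
        rw [if_neg, mul_zero]
        rintro rfl
        exact hg (by simp)
      · intro h'
        exact absurd (Finset.mem_univ _) h'
    have e2 : ∑ g, x g * (if h = g then (1 : ℤ) else 0) = x h := by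
      simpa using e1 1
    have e3 : ∑ g, x g * (2 * (if h = g * a then (1 : ℤ) else 0)) = 2 * x (h * a⁻¹) := by
      rw [← e1 a, Finset.mul_sum]
      exact Finset.sum_congr rfl fun g _ => by ring
    have e4 : ∑ g, x g * (if h = 1 then (1 : ℤ) else 0) = if h = 1 then ∑ g, x g else 0 := by
      split_ifs <;> simp
    rw [e1, e2, e3, e4]
  have tr : ∀ (c : H) (f : H → ℤ), ∑ h, f (h * c⁻¹) = ∑ h, f h := fun c f =>
    Equiv.sum_comp (Equiv.mulRight c⁻¹) f
  have hε : ∑ g, x g = 0 := by
    have h2 := Finset.sum_congr (rfl : (Finset.univ : Finset H) = Finset.univ) fun h _ => key h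
    simp only [Finset.sum_add_distrib, Finset.sum_sub_distrib, ← Finset.mul_sum, tr,
      Finset.sum_ite_eq', Finset.mem_univ, if_true, Finset.sum_const_zero] at h2
    linarith
  have key2 : ∀ h, x (h * b⁻¹) + x h = 2 * x (h * a⁻¹) := by
    intro h
    have := key h
    rw [hε, ite_self] at this
    linarith
  have hsq : ∑ h, (x (h * b⁻¹) - x h) ^ 2 = 0 := by
    have e1 : ∀ h, (x (h * b⁻¹) - x h) ^ 2 =
        2 * x (h * b⁻¹) ^ 2 + 2 * x h ^ 2 - 4 * x (h * a⁻¹) ^ 2 := by
      intro h
      have h3 := key2 h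
      have h4 : (x (h * b⁻¹) + x h) ^ 2 = 4 * x (h * a⁻¹) ^ 2 := by rw [h3]; ring
      nlinarith [h4]
    rw [Finset.sum_congr rfl fun h _ => e1 h]
    simp only [Finset.sum_add_distrib, Finset.sum_sub_distrib, ← Finset.mul_sum]
    rw [tr b (fun h => x h ^ 2), tr a (fun h => x h ^ 2)]
    ring
  have hb : ∀ h, x (h * b⁻¹) = x h := by
    intro h
    have h3 := (Finset.sum_eq_zero_iff_of_nonneg fun h _ => sq_nonneg _).1 hsq h (Finset.mem_univ h)
    have h4 := pow_eq_zero_iff (two_ne_zero) |>.1 h3
    linarith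
  have ha : ∀ h, x (h * a⁻¹) = x h := by
    intro h
    have := key2 h
    rw [hb h] at this
    linarith
  have hb' : ∀ h, x (h * b) = x h := fun h => by simpa using (hb (h * b)).symm
  have ha' : ∀ h, x (h * a) = x h := fun h => by simpa using (ha (h * a)).symm
  have hall : ∀ g ∈ Subgroup.closure {a, b}, ∀ h, x (h * g) = x h := by
    intro g hg
    induction hg using Subgroup.closure_induction with
    | mem y hy =>
      rcases hy with rfl | hy
      · exact ha'
      · rw [Set.mem_singleton_iff] at hy
        subst hy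
        exact hb'
    | one => intro h; rw [mul_one]
    | mul y z _ _ hy hz => intro h; rw [← mul_assoc, hz, hy]
    | inv y _ hy => intro h; have := hy (h * y⁻¹); rw [inv_mul_cancel_right] at this; exact this.symm
  have hconst : ∀ g, x g = x 1 := by
    intro g
    have := hall g (by rw [hgen]; exact Subgroup.mem_top g) 1
    rwa [one_mul] at this
  have h1 : x 1 = 0 := by
    have : (Fintype.card H : ℤ) * x 1 = 0 := by
      rw [← hε, Finset.sum_congr rfl fun g _ => hconst g]
      simp
    rcases mul_eq_zero.1 this with h2 | h2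
    · have : 0 < Fintype.card H := Fintype.card_pos
      omega
    · exact h2
  funext g
  rw [hconst g, h1, Pi.zero_apply]

theorem cocycle {W : Type*} [AddCommGroup W] (ρ : H → W →+ W) (β : H → W)
    (hβ : ∀ g h, β (g * h) = β g + ρ g (β h)) (h1 : β 1 = 0) {a b : H}
    (hgen : Subgroup.closure {a, b} = ⊤) (h2 : β b = (2 : ℤ) • β a) :
    ∃ N : ℕ, 0 < N ∧ N ≤ (Fintype.card H).factorial * 5 ^ Fintype.card H ∧ N • β a = 0 := by
  have hdet := det_ne_zero hgen
  have hbound : |(T a b).det| ≤ (Fintype.card H).factorial • (5 : ℤ) ^ Fintype.card H :=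
    Matrix.det_le (abv := AbsoluteValue.abs) (x := 5) fun i j => T_abs a b i j
  have hL : ∀ y : H → ℤ, ∑ h, (y ᵥ* T a b) h • β h = 0 := by
    intro y
    have e1 : ∑ h, (y ᵥ* T a b) h • β h = ∑ g, y g • ∑ h, T a b g h • β h := by
      simp only [Matrix.vecMul, dotProduct, Finset.sum_smul, Finset.smul_sum, mul_smul]
      exact Finset.sum_comm
    rw [e1]
    refine Finset.sum_eq_zero fun g _ => ?_
    rw [T_smul, hβ g b, hβ g a, h1, h2, map_zsmul]
    have : β g + (2 : ℤ) • (ρ g) (β a) + β g - (2 : ℤ) • (β g + (ρ g) (β a)) + 0 = 0 := by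
      rw [smul_add, two_smul ℤ (β g)]
      abel
    rw [this, smul_zero]
  have hmain : (T a b).det • β a = 0 := by
    obtain ⟨y, hy⟩ : ∃ y : H → ℤ, y = (Pi.single a 1 - Pi.single 1 1 : H → ℤ) ᵥ* (T a b).adjugate :=
      ⟨_, rfl⟩
    have h3 := hL y
    have h4 : y ᵥ* T a b = (T a b).det • (Pi.single a 1 - Pi.single 1 1 : H → ℤ) := by
      rw [hy, Matrix.vecMul_vecMul, Matrix.adjugate_mul, Matrix.vecMul_smul, Matrix.vecMul_one]
    rw [h4] at h3
    have h5 : ∀ c : H, ∑ h, ((T a b).det * (Pi.single c 1 : H → ℤ) h) • β h =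
        (T a b).det • β c := by
      intro c
      rw [Finset.sum_eq_single c]
      · simp
      · intro h _ hh
        rw [Pi.single_eq_of_ne hh, mul_zero, zero_smul]
      · intro h'
        exact absurd (Finset.mem_univ _) h'
    simp only [Pi.smul_apply, Pi.sub_apply, smul_eq_mul, mul_sub, sub_smul,
      Finset.sum_sub_distrib, h5, h1, smul_zero, sub_zero] at h3
    exact h3
  refine ⟨(T a b).det.natAbs, Int.natAbs_pos.2 hdet, ?_, ?_⟩
  · have : ((T a b).det.natAbs : ℤ) ≤ ((Fintype.card H).factorial * 5 ^ Fintype.card H : ℕ) := by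
      rw [Int.natCast_natAbs]
      push_cast
      simpa using hbound
    exact_mod_cast this
  · rcases Int.natAbs_eq (T a b).det with h | h
    · rw [← natCast_zsmul, ← h]
      exact hmain
    · rw [← natCast_zsmul]
      have h6 : ((T a b).det.natAbs : ℤ) = -(T a b).det := by omega
      rw [h6, neg_smul, hmain, neg_zero]

end

end Pool.Agent.K6.H91.EX
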