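import Mathlib
import Pool.Agent.K6.H91.EX.Lin

set_option autoImplicit false

/-!
# Normal subgroups of a product of two groups of finite exponent
-/

namespace Pool.Agent.K6.H91.EX

open Finset
open scoped commutatorElement

/-- the exponent: `m (M! 5 ^ M)!` -/
def bigN (m M : ℕ) : ℕ := m * (M.factorial * 5 ^ M).factorial

theorem bigN_pos {m M : ℕ} (hm : 0 < m) : 0 < bigN m M :=
  Nat.mul_pos hm (Nat.factorial_pos _)

/-- `G = A B`, the exponents of `A` and `B` divide `m`, and every subgroup of `A` generated by two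
elements has at most `M` elements. -/
structure IsProd {G : Type*} [Group G] (A B : Subgroup G) (m M : ℕ) : Prop where
  fac : ∀ g : G, ∃ a ∈ A, ∃ b ∈ B, g = a * b
  expA : ∀ a ∈ A, a ^ m = 1
  expB : ∀ b ∈ B, b ^ m = 1
  two : ∀ x ∈ A, ∀ y ∈ A, ((Subgroup.closure {x, y} : Subgroup G) : Set G).encard ≤ M

section

variable {G : Type*} [Group G] {A B V : Subgroup G} {m M : ℕ}

theorem well_def (hV : ∀ x ∈ V, ∀ y ∈ V, x * y = y * x) (hB : ∀ b ∈ B, b ^ m = 1) {u u' g : G}
    (hu : u ∈ V) (hu' : u' ∈ V) (h : u * g ∈ B) (h' : u' * g ∈ B) : u ^ m = u' ^ m := by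
  have h1 : u * u'⁻¹ ∈ B := by
    have := B.mul_mem h (B.inv_mem h')
    simpa [mul_assoc] using this
  have h2 := hB _ h1
  have hc : Commute u u'⁻¹ := hV _ hu _ (V.inv_mem hu')
  rw [hc.mul_pow, inv_pow] at h2
  exact mul_inv_eq_one.1 h2

theorem abelian_normal_aux [V.Normal] (hV : ∀ x ∈ V, ∀ y ∈ V, x * y = y * x)
    (h : IsProd A B m M) {v : G} (hv : v ∈ V) :
    ∃ N : ℕ, 0 < N ∧ N ≤ M.factorial * 5 ^ M ∧ v ^ (m * N) = 1 := by
  classical
  have hBA : ∀ g : G, ∃ a ∈ A, g * a ∈ B := by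
    intro g
    obtain ⟨a, ha, b, hb, hg⟩ := h.fac g⁻¹
    refine ⟨a, ha, ?_⟩
    have : g * a = b⁻¹ := by
      have h1 : g = b⁻¹ * a⁻¹ := by rw [← inv_inv g, hg, mul_inv_rev]
      rw [h1]
      group
    rw [this]
    exact B.inv_mem hb
  obtain ⟨a, ha, hva⟩ := hBA v
  obtain ⟨b, hb, hvb⟩ := hBA (v ^ 2)
  obtain ⟨H, hH⟩ : ∃ H : Subgroup G, H = Subgroup.closure {a, b} := ⟨_, rfl⟩
  have haH : a ∈ H := by rw [hH]; exact Subgroup.subset_closure (by simp)
  have hbH : b ∈ H := by rw [hH]; exact Subgroup.subset_closure (by simp)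
  have hcard : (H : Set G).encard ≤ M := by rw [hH]; exact h.two a ha b hb
  have hfin : (H : Set G).Finite := Set.finite_of_encard_le_coe hcard
  haveI : Fintype H := hfin.fintype
  have hcard' : Fintype.card H ≤ M := by
    have e1 : (H : Set G).encard = (Fintype.card H : ℕ∞) := by
      rw [Set.encard, ENat.card_eq_coe_fintype_card]
      rfl
    rw [e1] at hcard
    exact_mod_cast hcard
  have hex : ∀ g ∈ H, ∃ u ∈ V, u * g ∈ B := by
    intro g hg
    rw [hH] at hg
    induction hg using Subgroup.closure_induction with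
    | mem y hy =>
      rcases hy with rfl | hy
      · exact ⟨v, hv, hva⟩
      · rw [Set.mem_singleton_iff] at hy
        subst hy
        exact ⟨v ^ 2, V.pow_mem hv 2, hvb⟩
    | one => exact ⟨1, V.one_mem, by rw [one_mul]; exact B.one_mem⟩
    | mul y z _ _ hy hz =>
      obtain ⟨u, hu, h1⟩ := hy
      obtain ⟨w, hw, h2⟩ := hz
      refine ⟨u * (y * w * y⁻¹), V.mul_mem hu (Subgroup.Normal.conj_mem inferInstance w hw y), ?_⟩
      have : u * (y * w * y⁻¹) * (y * z) = u * y * (w * z) := by group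
      rw [this]
      exact B.mul_mem h1 h2
    | inv y _ hy =>
      obtain ⟨u, hu, h1⟩ := hy
      refine ⟨y⁻¹ * u⁻¹ * y⁻¹⁻¹, Subgroup.Normal.conj_mem inferInstance _ (V.inv_mem hu) _, ?_⟩
      have : y⁻¹ * u⁻¹ * y⁻¹⁻¹ * y⁻¹ = (u * y)⁻¹ := by group
      rw [this]
      exact B.inv_mem h1
  choose u huV huB using fun g : H => hex g g.2
  letI : CommGroup V := { (inferInstance : Group V) with
    mul_comm := fun x y => Subtype.ext (hV x x.2 y y.2) }
  let β : H → Additive V := fun g => Additive.ofMul ((⟨u g, huV g⟩ : V) ^ m)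
  let ρ : H → Additive V →+ Additive V := fun g =>
    MonoidHom.toAdditive (MulAut.conjNormal (g : G) : MulAut V).toMonoidHom
  have hval : ∀ (g : H) (w : V), (w : G) * (g : G) ∈ B → β g = Additive.ofMul (w ^ m) := by
    intro g w hw
    show Additive.ofMul ((⟨u g, huV g⟩ : V) ^ m) = Additive.ofMul (w ^ m)
    congr 1
    apply Subtype.ext
    rw [Subgroup.coe_pow, Subgroup.coe_pow]
    exact well_def hV h.expB (huV g) w.2 (huB g) hw
  have hβ : ∀ g g', β (g * g') = β g + ρ g (β g') := by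
    intro g g'
    rw [hval (g * g') ((⟨u g, huV g⟩ : V) * MulAut.conjNormal (g : G) (⟨u g', huV g'⟩ : V))]
    · show Additive.ofMul (((⟨u g, huV g⟩ : V) * MulAut.conjNormal (g : G)
        (⟨u g', huV g'⟩ : V)) ^ m) = Additive.ofMul ((⟨u g, huV g⟩ : V) ^ m *
          MulAut.conjNormal (g : G) ((⟨u g', huV g'⟩ : V) ^ m))
      congr 1
      rw [mul_pow, map_pow]
    · have e : ((((⟨u g, huV g⟩ : V) * MulAut.conjNormal (g : G) (⟨u g', huV g'⟩ : V) : V)) : G) *
          ((g * g' : H) : G) = u g * (g : G) * (u g' * (g' : G)) := by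
        rw [Subgroup.coe_mul, MulAut.conjNormal_apply, Subgroup.coe_mul]
        group
      rw [e]
      exact B.mul_mem (huB g) (huB g')
  have h1 : β 1 = 0 := by
    rw [hval 1 1 (by simpa using B.one_mem)]
    simp
  have ha1 : β ⟨a, haH⟩ = Additive.ofMul ((⟨v, hv⟩ : V) ^ m) := hval ⟨a, haH⟩ ⟨v, hv⟩ hva
  have hb1 : β ⟨b, hbH⟩ = (2 : ℤ) • β ⟨a, haH⟩ := by
    rw [ha1, hval ⟨b, hbH⟩ ((⟨v, hv⟩ : V) ^ 2) (by simpa using hvb)]
    rw [← ofMul_zpow]
    congr 1
    rw [zpow_ofNat, ← pow_mul, ← pow_mul, mul_comm]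
  have hgen : Subgroup.closure {(⟨a, haH⟩ : H), ⟨b, hbH⟩} = ⊤ := by
    have e1 : (Subtype.val ⁻¹' ({a, b} : Set G) : Set H) = {(⟨a, haH⟩ : H), ⟨b, hbH⟩} := by
      ext x
      simp only [Set.mem_preimage, Set.mem_insert_iff, Set.mem_singleton_iff, Subtype.ext_iff]
    have e2 := Subgroup.closure_closure_coe_preimage (k := ({a, b} : Set G))
    subst hH
    rw [← e1]
    exact e2
  obtain ⟨N, hN0, hN1, hN2⟩ := cocycle ρ β hβ h1 hgen hb1
  rw [ha1, ← ofMul_pow, ← pow_mul] at hN2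
  have h3 : v ^ (m * N) = 1 := by
    have := congrArg (fun x : Additive V => ((Additive.toMul x : V) : G)) hN2
    simpa using this
  exact ⟨N, hN0, hN1.trans (Nat.mul_le_mul (Nat.factorial_le hcard')
    (Nat.pow_le_pow_right (by norm_num) hcard')), h3⟩

theorem abelian_normal [V.Normal] (hV : ∀ x ∈ V, ∀ y ∈ V, x * y = y * x) (h : IsProd A B m M)
    {v : G} (hv : v ∈ V) : v ^ bigN m M = 1 := by
  obtain ⟨N, hN0, hN1, h3⟩ := abelian_normal_aux hV h hv
  obtain ⟨c, hc⟩ := Nat.dvd_factorial hN0 hN1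
  unfold bigN
  rw [hc, ← mul_assoc, pow_mul, h3, one_pow]

theorem abelian_normal_p [V.Normal] (hV : ∀ x ∈ V, ∀ y ∈ V, x * y = y * x) (h : IsProd A B m M)
    {p : ℕ} (hp : p.Prime) (hG : IsPGroup p G) {v : G} (hv : v ∈ V) :
    v ^ (m * p ^ Nat.log p (M.factorial * 5 ^ M)) = 1 := by
  obtain ⟨N, hN0, hN1, h3⟩ := abelian_normal_aux hV h hv
  rw [pow_mul] at h3 ⊢
  have : Fact p.Prime := ⟨hp⟩
  obtain ⟨k, hk⟩ := hG (v ^ m)
  obtain ⟨j, hj, hj2⟩ := (Nat.dvd_prime_pow hp).1 (orderOf_dvd_of_pow_eq_one hk)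
  have h4 : orderOf (v ^ m) ∣ N := orderOf_dvd_of_pow_eq_one h3
  rw [hj2] at h4
  have h5 : p ^ j ≤ M.factorial * 5 ^ M := (Nat.le_of_dvd hN0 h4).trans hN1
  have h6 : j ≤ Nat.log p (M.factorial * 5 ^ M) := Nat.le_log_of_pow_le hp.one_lt h5
  refine orderOf_dvd_iff_pow_eq_one.1 ?_
  rw [hj2]
  exact pow_dvd_pow p h6

/-- images -/
theorem IsProd.map {Q : Type*} [Group Q] (f : G →* Q) (hf : Function.Surjective f)
    (h : IsProd A B m M) : IsProd (A.map f) (B.map f) m M := by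
  refine ⟨fun g => ?_, ?_, ?_, ?_⟩
  · obtain ⟨g, rfl⟩ := hf g
    obtain ⟨a, ha, b, hb, rfl⟩ := h.fac g
    exact ⟨f a, Subgroup.mem_map_of_mem f ha, f b, Subgroup.mem_map_of_mem f hb, map_mul f a b⟩
  · rintro _ ⟨a, ha, rfl⟩
    rw [← map_pow, h.expA a ha, map_one]
  · rintro _ ⟨b, hb, rfl⟩
    rw [← map_pow, h.expB b hb, map_one]
  · rintro _ ⟨x, hx, rfl⟩ _ ⟨y, hy, rfl⟩
    have e1 : ((Subgroup.closure {f x, f y} : Subgroup Q) : Set Q) =
        f '' ((Subgroup.closure {x, y} : Subgroup G) : Set G) := by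
      rw [← Subgroup.coe_map, MonoidHom.map_closure, Set.image_pair]
    rw [e1]
    exact (Set.encard_image_le _ _).trans (h.two x hx y hy)

theorem normal_pow [hVn : V.Normal] (h : IsProd A B m M) {v : G} (hv : v ∈ V) :
    v ^ bigN m M ∈ ⁅V, V⁆ := by
  haveI : (⁅V, V⁆).Normal := Subgroup.commutator_normal V V
  have hs : Function.Surjective (QuotientGroup.mk' ⁅V, V⁆) := QuotientGroup.mk'_surjective _
  haveI : (V.map (QuotientGroup.mk' ⁅V, V⁆)).Normal := Subgroup.Normal.map hVn _ hs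
  have h1 := abelian_normal (V := V.map (QuotientGroup.mk' ⁅V, V⁆)) ?_ (h.map _ hs)
    (Subgroup.mem_map_of_mem _ hv)
  · rw [← map_pow] at h1
    exact (QuotientGroup.eq_one_iff _).1 h1
  · rintro _ ⟨x, hx, rfl⟩ _ ⟨y, hy, rfl⟩
    rw [← map_mul, ← map_mul]
    refine (QuotientGroup.eq_iff_div_mem (N := ⁅V, V⁆)).2 ?_
    have : x * y / (y * x) = ⁅x, y⁆ := by
      rw [commutatorElement_def, div_eq_mul_inv, mul_inv_rev]
      simp [mul_assoc]
    rw [this]
    exact Subgroup.commutator_mem_commutator hx hy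

theorem normal_pow_p [hVn : V.Normal] (h : IsProd A B m M) {p : ℕ} (hp : p.Prime)
    (hG : IsPGroup p G) {v : G} (hv : v ∈ V) :
    v ^ (m * p ^ Nat.log p (M.factorial * 5 ^ M)) ∈ ⁅V, V⁆ := by
  haveI : (⁅V, V⁆).Normal := Subgroup.commutator_normal V V
  have hs : Function.Surjective (QuotientGroup.mk' ⁅V, V⁆) := QuotientGroup.mk'_surjective _
  haveI : (V.map (QuotientGroup.mk' ⁅V, V⁆)).Normal := Subgroup.Normal.map hVn _ hs
  have h1 := abelian_normal_p (V := V.map (QuotientGroup.mk' ⁅V, V⁆)) ?_ (h.map _ hs) hp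
    (hG.to_quotient _) (Subgroup.mem_map_of_mem _ hv)
  · rw [← map_pow] at h1
    exact (QuotientGroup.eq_one_iff _).1 h1
  · rintro _ ⟨x, hx, rfl⟩ _ ⟨y, hy, rfl⟩
    rw [← map_mul, ← map_mul]
    refine (QuotientGroup.eq_iff_div_mem (N := ⁅V, V⁆)).2 ?_
    have : x * y / (y * x) = ⁅x, y⁆ := by
      rw [commutatorElement_def, div_eq_mul_inv, mul_inv_rev]
      simp [mul_assoc]
    rw [this]
    exact Subgroup.commutator_mem_commutator hx hy

/-- the iterated commutator subgroups -/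
def der (K : Subgroup G) : ℕ → Subgroup G
  | 0 => K
  | n + 1 => ⁅der K n, der K n⁆

theorem der_normal (K : Subgroup G) [hK : K.Normal] : ∀ n, (der K n).Normal
  | 0 => hK
  | n + 1 => by
    haveI := der_normal K n
    exact Subgroup.commutator_normal _ _

theorem der_pow (K : Subgroup G) [K.Normal] (h : IsProd A B m M) {g : G} (hg : g ∈ K) :
    ∀ d, g ^ (bigN m M ^ d) ∈ der K d
  | 0 => by simpa [der] using hg
  | d + 1 => by
    haveI := der_normal K d
    have := normal_pow h (der_pow K h hg d)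
    rwa [← pow_mul, ← pow_succ] at this

theorem der_pow_p (K : Subgroup G) [K.Normal] (h : IsProd A B m M) {p : ℕ} (hp : p.Prime)
    (hG : IsPGroup p G) {g : G} (hg : g ∈ K) :
    ∀ d, g ^ ((m * p ^ Nat.log p (M.factorial * 5 ^ M)) ^ d) ∈ der K d
  | 0 => by simpa [der] using hg
  | d + 1 => by
    haveI := der_normal K d
    have := normal_pow_p h hp hG (der_pow_p K h hp hG hg d)
    rwa [← pow_mul, ← pow_succ] at this

theorem der_le (K : Subgroup G) : ∀ d, der K d ≤ (derivedSeries K d).map K.subtype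
  | 0 => by
    rw [derivedSeries_zero, ← MonoidHom.range_eq_map, Subgroup.range_subtype]
    exact le_rfl
  | d + 1 => by
    rw [derivedSeries_succ, Subgroup.map_commutator]
    exact Subgroup.commutator_mono (der_le K d) (der_le K d)

theorem der_eq_bot {K : Subgroup G} {d : ℕ} (h : derivedSeries K d = ⊥) : der K d = ⊥ := by
  have h1 := der_le K d
  rw [h, Subgroup.map_bot] at h1
  exact le_bot_iff.1 h1

theorem der_top (d : ℕ) : der (⊤ : Subgroup G) d = derivedSeries G d := by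
  induction d with
  | zero => rfl
  | succ n ih => rw [derivedSeries_succ, ← ih]; rfl

theorem solvable_pow (h : IsProd A B m M) {d : ℕ} (hd : derivedSeries G d = ⊥) (g : G) :
    g ^ (bigN m M ^ d) = 1 := by
  have := der_pow ⊤ h (Subgroup.mem_top g) d
  rwa [der_top, hd, Subgroup.mem_bot] at this

end

end Pool.Agent.K6.H91.EX
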