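import Mathlib
import Pool.Agent.K6.H91.EX.Grp

set_option autoImplicit false

/-!
# The order of a soluble group with `k` generators, of finite exponent
-/

namespace Pool.Agent.K6.H91.EX

/-- a bound for the order of a group of derived length at most `d` and exponent dividing `m` with `k`
generators -/
def solBound (m : ℕ) : ℕ → ℕ → ℕ
  | 0, _ => 1
  | d + 1, k => m ^ k * solBound m d (m ^ k * k)

theorem derived_comm {X : Type*} [Group X] (n : ℕ) :
    (derivedSeries (commutator X) n).map (commutator X).subtype ≤ derivedSeries X (n + 1) := by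
  induction n with
  | zero =>
    rw [derivedSeries_zero, ← MonoidHom.range_eq_map, Subgroup.range_subtype]
    rw [derivedSeries_succ, derivedSeries_zero]
    exact le_rfl
  | succ n ih =>
    rw [derivedSeries_succ, Subgroup.map_commutator, derivedSeries_succ X (n + 1)]
    exact Subgroup.commutator_mono ih ih

theorem sol_bound_mono (m : ℕ) (hm : 0 < m) (d : ℕ) : ∀ {k l : ℕ}, k ≤ l →
    solBound m d k ≤ solBound m d l := by
  induction d with
  | zero => intro k l _; exact le_rfl
  | succ d ih =>
    intro k l h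
    have h1 : m ^ k ≤ m ^ l := Nat.pow_le_pow_right hm h
    exact Nat.mul_le_mul h1 (ih (Nat.mul_le_mul h1 h))

theorem sol_finite (m : ℕ) (hm : 0 < m) (d : ℕ) : ∀ (k : ℕ) (X : Type) [Group X] [Group.FG X],
    Group.rank X ≤ k → (∀ x : X, x ^ m = 1) → derivedSeries X d = ⊥ →
      Finite X ∧ Nat.card X ≤ solBound m d k := by
  induction d with
  | zero =>
    intro k X _ _ _ _ h
    rw [derivedSeries_zero] at h
    have : Subsingleton X := by
      refine ⟨fun x y => ?_⟩
      have hx : x ∈ (⊤ : Subgroup X) := Subgroup.mem_top x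
      have hy : y ∈ (⊤ : Subgroup X) := Subgroup.mem_top y
      rw [h, Subgroup.mem_bot] at hx hy
      rw [hx, hy]
    exact ⟨inferInstance, by rw [Nat.card_unique]; exact le_rfl⟩
  | succ d ih =>
    intro k X _ _ hk hexp h
    have : Group.FG (Abelianization X) := QuotientGroup.fg (commutator X)
    have e1 : Nat.card (X ⧸ commutator X) ∣ m ^ Group.rank (Abelianization X) := by
      refine card_dvd_exponent_pow_rank' (Abelianization X) fun g => ?_
      obtain ⟨x, rfl⟩ := QuotientGroup.mk_surjective g
      show (QuotientGroup.mk x : X ⧸ commutator X) ^ m = 1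
      rw [← QuotientGroup.mk_pow, hexp, QuotientGroup.mk_one]
    have e2 : Group.rank (Abelianization X) ≤ k :=
      (Group.rank_le_of_surjective Abelianization.of (QuotientGroup.mk_surjective)).trans hk
    have e3 : Nat.card (X ⧸ commutator X) ≤ m ^ k :=
      (Nat.le_of_dvd (pow_pos hm _) e1).trans (Nat.pow_le_pow_right hm e2)
    have e4 : Nat.card (X ⧸ commutator X) ≠ 0 := ne_zero_of_dvd_ne_zero (pow_pos hm _).ne' e1
    have e5 : (commutator X).index ≤ m ^ k := e3
    have : (commutator X).FiniteIndex := ⟨e4⟩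
    have e6 : Group.rank (commutator X) ≤ m ^ k * k :=
      (Subgroup.rank_le_index_mul_rank (commutator X)).trans (Nat.mul_le_mul e5 hk)
    have e7 : derivedSeries (commutator X) d = ⊥ := by
      have h1 := derived_comm (X := X) d
      rw [h, le_bot_iff] at h1
      exact (Subgroup.map_eq_bot_iff_of_injective _ (Subgroup.subtype_injective _)).1 h1
    obtain ⟨f1, f2⟩ := ih (m ^ k * k) (commutator X) e6
      (fun x => Subtype.ext (by rw [Subgroup.coe_pow, hexp]; rfl)) e7
    have e8 := Subgroup.card_mul_index (commutator X)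
    have e9 : Nat.card X ≠ 0 := by
      rw [← e8]
      exact mul_ne_zero (Nat.card_pos).ne' e4
    refine ⟨(Nat.card_ne_zero.1 e9).2, ?_⟩
    rw [← e8, mul_comm]
    exact Nat.mul_le_mul e5 f2

theorem two_gen (m : ℕ) (hm : 0 < m) (d : ℕ) {G : Type} [Group G] (A : Subgroup G)
    (hA : ∀ a ∈ A, a ^ m = 1) (hd : derivedSeries G d = ⊥) :
    ∀ x ∈ A, ∀ y ∈ A, ((Subgroup.closure {x, y} : Subgroup G) : Set G).encard ≤
      (solBound m d 2 : ℕ) := by
  classical
  intro x hx y hy
  obtain ⟨S, hS⟩ : ∃ S : Finset G, S = {x, y} := ⟨_, rfl⟩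
  have hS' : (({x, y} : Set G)) = (S : Set G) := by rw [hS]; simp
  have hc : S.card ≤ 2 := by rw [hS]; exact Finset.card_le_two
  have hle : Subgroup.closure (S : Set G) ≤ A := by
    rw [← hS', Subgroup.closure_le]
    rintro z (rfl | rfl)
    · exact hx
    · exact hy
  rw [hS']
  obtain ⟨f1, f2⟩ := sol_finite m hm d 2 (Subgroup.closure (S : Set G))
    ((Subgroup.rank_closure_finset_le_card S).trans hc)
    (fun z => Subtype.ext (by rw [Subgroup.coe_pow, hA _ (hle z.2)]; rfl))
    (by
      have h1 := map_derivedSeries_le_derivedSeries (Subgroup.closure (S : Set G)).subtype d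
      rw [hd, le_bot_iff] at h1
      exact (Subgroup.map_eq_bot_iff_of_injective _ (Subgroup.subtype_injective _)).1 h1)
  have e1 : ((Subgroup.closure (S : Set G) : Subgroup G) : Set G).encard =
      (Nat.card (Subgroup.closure (S : Set G)) : ℕ∞) := by
    rw [Set.encard, ENat.card_eq_coe_natCard]
    rfl
  rw [e1]
  exact_mod_cast f2

end Pool.Agent.K6.H91.EX
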